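import Pool.Agent.Helper89.GammaMain

/-!
CH implies that `ℤ^ℕ` has a subgroup of cardinality continuum satisfying
`S₁(B_Ω, B_Γ)` (and hence also `S₁(Ω, Γ)`, see Pool/Agent/Helper89/GammaOpen.lean).
-/

open Set Cardinal Filter

namespace Pool.Agent.Results.MP_cc0654_lc.BorelGammaGroup

/-- `𝒰` is an omega-cover of `X`: it is a cover, `X` is not a member, and every finite subset
of `X` is contained in some member. -/
def IsOmegaCover {X : Type} (𝒰 : Set (Set X)) : Prop :=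
  ⋃₀ 𝒰 = Set.univ ∧ Set.univ ∉ 𝒰 ∧ ∀ F : Set X, F.Finite → ∃ U ∈ 𝒰, F ⊆ U

/-- `𝒰` is a gamma-cover of `X`: it is a cover, it is infinite, and each point of `X` lies in
all but finitely many members. -/
def IsGammaCover {X : Type} (𝒰 : Set (Set X)) : Prop :=
  ⋃₀ 𝒰 = Set.univ ∧ 𝒰.Infinite ∧ ∀ x : X, {U | U ∈ 𝒰 ∧ x ∉ U}.Finite

/-- `B_Ω`: the countable omega-covers by Borel sets. -/
def BorelOmega (X : Type) [TopologicalSpace X] : Set (Set (Set X)) :=
  {𝒰 | 𝒰.Countable ∧ (∀ U ∈ 𝒰, @MeasurableSet X (borel X) U) ∧ IsOmegaCover 𝒰}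

/-- `B_Γ`: the countable gamma-covers by Borel sets. -/
def BorelGamma (X : Type) [TopologicalSpace X] : Set (Set (Set X)) :=
  {𝒰 | 𝒰.Countable ∧ (∀ U ∈ 𝒰, @MeasurableSet X (borel X) U) ∧ IsGammaCover 𝒰}

/-- The selection principle `S₁(𝒜, ℬ)`. -/
def S1 {X : Type} (𝒜 ℬ : Set (Set (Set X))) : Prop :=
  ∀ 𝒰 : ℕ → Set (Set X), (∀ n, 𝒰 n ∈ 𝒜) →
    ∃ U : ℕ → Set X, (∀ n, U n ∈ 𝒰 n) ∧ range U ∈ ℬ

/-- A sequence of sets converging to the whole space, none of which is the whole space,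
enumerates a gamma-cover. -/
theorem isGammaCover_range {X : Type} (U : ℕ → Set X) (h1 : ∀ n, U n ≠ Set.univ)
    (h2 : ∀ x : X, ∃ n₀, ∀ n, n₀ ≤ n → x ∈ U n) : IsGammaCover (range U) := by
  refine ⟨?_, ?_, ?_⟩
  · rw [eq_univ_iff_forall]
    intro x
    obtain ⟨n₀, hn₀⟩ := h2 x
    exact ⟨U n₀, mem_range_self _, hn₀ n₀ le_rfl⟩
  · intro hfin
    have : Finite (range U) := hfin.to_subtype
    obtain ⟨V, hV⟩ := Finite.exists_infinite_fiber (Set.rangeFactorization U)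
    rw [Set.infinite_coe_iff] at hV
    have hVuniv : (V : Set X) = Set.univ := by
      rw [eq_univ_iff_forall]
      intro x
      obtain ⟨n₀, hn₀⟩ := h2 x
      obtain ⟨n, hn, hlt⟩ := hV.exists_gt n₀
      have h3 : U n = V := congrArg Subtype.val hn
      rw [← h3]
      exact hn₀ n hlt.le
    obtain ⟨n, hn⟩ := V.2
    exact h1 n (hn.trans hVuniv)
  · intro x
    obtain ⟨n₀, hn₀⟩ := h2 x
    refine ((Set.finite_lt_nat n₀).image U).subset ?_
    rintro _ ⟨⟨n, rfl⟩, hx⟩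
    refine ⟨n, ?_, rfl⟩
    by_contra hcon
    exact hx (hn₀ n (not_lt.1 hcon))

/-- Borel subsets of a subgroup are traces of Borel sets. -/
theorem exists_trace (G : AddSubgroup (ℕ → ℤ)) (U : Set G) (hU : @MeasurableSet G (borel G) U) :
    ∃ b : Set (ℕ → ℤ), MeasurableSet b ∧ ∀ x : G, x ∈ U ↔ (x : ℕ → ℤ) ∈ b := by
  have h1 : MeasurableSet U := by
    have : (inferInstance : MeasurableSpace G) = borel G := BorelSpace.measurable_eq
    have h2 : @MeasurableSet G (inferInstance : MeasurableSpace G) U := by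
      rw [this]; exact hU
    exact h2
  obtain ⟨b, hb, rfl⟩ := h1
  exact ⟨b, hb, fun x => Iff.rfl⟩

/-- The Gerlits-Nagy argument. -/
theorem core (G : AddSubgroup (ℕ → ℤ)) (hG : (G : Set (ℕ → ℤ)).Infinite)
    (hstar : ∀ B : ℕ → Set (ℕ → ℤ), (∀ n, MeasurableSet (B n)) →
        (∀ F : Set (ℕ → ℤ), F.Finite → F ⊆ G → ∀ n₀, ∃ n, n₀ ≤ n ∧ F ⊆ B n) →
        ∃ φ : ℕ → ℕ, StrictMono φ ∧ ∀ v ∈ G, ∀ᶠ j in atTop, v ∈ B (φ j))
    (𝒰 : ℕ → Set (Set G)) (h𝒰 : ∀ n, 𝒰 n ∈ BorelOmega G) :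
    ∃ U : ℕ → Set G, (∀ n, U n ∈ 𝒰 n) ∧ ∀ x : G, ∃ n₀, ∀ n, n₀ ≤ n → x ∈ U n := by
  have hne : ∀ n, (𝒰 n).Nonempty := by
    intro n
    obtain ⟨U, hU, -⟩ := (h𝒰 n).2.2.2.2 ∅ Set.finite_empty
    exact ⟨U, hU⟩
  have hu : ∀ n, ∃ u : ℕ → Set G, 𝒰 n = range u := fun n =>
    (h𝒰 n).1.exists_eq_range (hne n)
  choose u hu using hu
  have hb : ∀ n k, ∃ b : Set (ℕ → ℤ), MeasurableSet b ∧
      ∀ x : G, x ∈ u n k ↔ (x : ℕ → ℤ) ∈ b := by
    intro n k
    refine exists_trace G (u n k) ((h𝒰 n).2.1 _ ?_)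
    rw [hu n]; exact mem_range_self k
  choose b hbm hb using hb
  -- distinct points of `G`
  let x : ℕ → (ℕ → ℤ) := fun n => (hG.natEmbedding (s := (G : Set (ℕ → ℤ))) n : ℕ → ℤ)
  have hxinj : Function.Injective x := fun a c hac =>
    (hG.natEmbedding (s := (G : Set (ℕ → ℤ)))).injective (Subtype.ext hac)
  have hxG : ∀ n, x n ∈ G := fun n => (hG.natEmbedding (s := (G : Set (ℕ → ℤ))) n).2
  clear_value x
  obtain ⟨e, he⟩ := exists_surjective_nat (Σ n : ℕ, (Fin (n + 1) → ℕ))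
  let B : ℕ → Set (ℕ → ℤ) := fun i =>
    (⋂ k : Fin ((e i).1 + 1), b k ((e i).2 k)) \ {x (e i).1}
  have hBm : ∀ i, MeasurableSet (B i) := fun i =>
    (MeasurableSet.iInter fun k => hbm _ _).diff (measurableSet_singleton _)
  obtain ⟨φ, -, hφv⟩ := hstar B hBm (by
    intro F hF hFG n₀
    -- choose members of the covers containing `F`
    have h1 : ∀ k, ∃ s, ∀ v ∈ F, v ∈ b k s := by
      intro k
      have hfin : (((↑) : G → (ℕ → ℤ)) ⁻¹' F).Finite :=
        hF.preimage Subtype.val_injective.injOn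
      obtain ⟨U, hU, hFU⟩ := (h𝒰 k).2.2.2.2 _ hfin
      rw [hu k] at hU
      obtain ⟨s, rfl⟩ := hU
      refine ⟨s, fun v hv => ?_⟩
      exact (hb k s ⟨v, hFG hv⟩).1 (hFU hv)
    choose s hs using h1
    -- choose the index
    have h2 : {n | x n ∈ F}.Finite := hF.preimage hxinj.injOn
    obtain ⟨N, hN⟩ := h2.bddAbove
    obtain ⟨M, hM⟩ : ∃ M, ∀ i, i < n₀ → (e i).1 ≤ M := by
      refine ⟨(Finset.range n₀).sup fun i => (e i).1, fun i hi => ?_⟩
      exact Finset.le_sup (f := fun i => (e i).1) (Finset.mem_range.2 hi)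
    obtain ⟨i, hi⟩ := he ⟨max N M + 1, fun k => s k⟩
    have hi1 : (e i).1 = max N M + 1 := by rw [hi]
    refine ⟨i, ?_, ?_⟩
    · by_contra hcon
      have := hM i (not_le.1 hcon)
      rw [hi1] at this
      have := le_max_right N M
      omega
    · intro v hv
      refine ⟨?_, ?_⟩
      · rw [mem_iInter]
        have : ∀ k : Fin ((e i).1 + 1), (e i).2 k = s k := by
          rw [hi]
          intro k
          rfl
        intro k
        rw [this k]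
        exact hs k v hv
      · rw [mem_singleton_iff]
        intro hvx
        have h3 : (e i).1 ∈ {n | x n ∈ F} := by
          change x (e i).1 ∈ F
          rw [← hvx]; exact hv
        have h4 := hN h3
        rw [hi1] at h4
        have := le_max_left N M
        omega)
  -- the indices tend to infinity
  have hlarge : ∀ n, ∃ j, n ≤ j ∧ n ≤ (e (φ j)).1 := by
    intro n
    have h1 : ∀ᶠ j in atTop, ∀ m ∈ Finset.range n, x m ∈ B (φ j) := by
      rw [Finset.eventually_all]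
      intro m _
      exact hφv (x m) (hxG m)
    obtain ⟨j, hj1, hj2⟩ := (h1.and (eventually_ge_atTop n)).exists
    refine ⟨j, hj2, ?_⟩
    by_contra hcon
    have h2 := hj1 (e (φ j)).1 (Finset.mem_range.2 (not_le.1 hcon))
    exact h2.2 rfl
  choose J hJ1 hJ2 using hlarge
  refine ⟨fun n => u n ((e (φ (J n))).2 ⟨n, Nat.lt_succ_of_le (hJ2 n)⟩), fun n => ?_, ?_⟩
  · rw [hu n]; exact mem_range_self _
  · intro v
    obtain ⟨j₀, hj₀⟩ := eventually_atTop.1 (hφv v v.2)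
    refine ⟨j₀, fun n hn => ?_⟩
    have h1 := (hj₀ (J n) (le_trans hn (hJ1 n))).1
    rw [mem_iInter] at h1
    have h2 := h1 ⟨n, Nat.lt_succ_of_le (hJ2 n)⟩
    exact (hb n _ v).2 h2

/-- CH implies that there is a subgroup `G` of `ℤ^ℕ` with `|G| = 𝔠` satisfying
`S₁(B_Ω, B_Γ)`. -/
theorem result (hCH : ℵ₁ = (𝔠 : Cardinal.{0})) :
    ∃ G : AddSubgroup (ℕ → ℤ), #G = 𝔠 ∧ S1 (BorelOmega G) (BorelGamma G) := by
  obtain ⟨G, hG, hstar⟩ := Pool.Agent.Helper89.GammaGroup.exists_group hCH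
  have hinf : (G : Set (ℕ → ℤ)).Infinite := by
    rw [← Set.infinite_coe_iff, Cardinal.infinite_iff]
    change ℵ₀ ≤ #G
    rw [hG]
    exact Cardinal.aleph0_le_continuum
  refine ⟨G, hG, ?_⟩
  intro 𝒰 h𝒰
  obtain ⟨U, hU, hv⟩ := core G hinf hstar 𝒰 h𝒰
  refine ⟨U, hU, countable_range U, ?_, ?_⟩
  · rintro _ ⟨n, rfl⟩
    exact (h𝒰 n).2.1 _ (hU n)
  · refine isGammaCover_range U (fun n hn => ?_) hv
    have := hU n
    rw [hn] at this
    exact (h𝒰 n).2.2.2.1 this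

end Pool.Agent.Results.MP_cc0654_lc.BorelGammaGroup
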